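import Mathlib

/-!
# The greedy selection of the exceptional elements (for the package GRE)
-/

set_option autoImplicit false

open Finset

namespace Pool.Agent.P8H5.CY

/-- If there is no sequence of `n + 1` elements `b i` of `T` which are dependent on sets `C i`
containing none of the `b i'` with `i' ≤ i`, then there are at most `n` exceptional elements. -/
theorem greedy (T : Finset ℕ) (k n : ℕ) (P : ℕ → Finset ℕ → Prop)
    (hQ : ¬ ∃ (b : Fin (n + 1) → ℕ) (C : Fin (n + 1) → Finset ℕ), (∀ i, b i ∈ T) ∧ (∀ i, C i ⊆ T) ∧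
      (∀ i, (C i).card ≤ k) ∧ Function.Injective b ∧ (∀ i' i, i' ≤ i → b i' ∉ C i) ∧
      ∀ i, P (b i) (C i)) :
    ∃ E : Finset ℕ, E ⊆ T ∧ E.card ≤ n ∧ ∀ x ∈ T \ E, ∀ C : Finset ℕ, C ⊆ T \ E → x ∉ C →
      C.card ≤ k → ¬ P x C := by
  classical
  let Q : ℕ → Prop := fun j => ∃ (b : Fin j → ℕ) (C : Fin j → Finset ℕ), (∀ i, b i ∈ T) ∧
    (∀ i, C i ⊆ T) ∧ (∀ i, (C i).card ≤ k) ∧ Function.Injective b ∧
    (∀ i' i, i' ≤ i → b i' ∉ C i) ∧ ∀ i, P (b i) (C i)
  have hQ0 : Q 0 := ⟨fun i => i.elim0, fun i => i.elim0, fun i => i.elim0, fun i => i.elim0,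
    fun i => i.elim0, fun i => i.elim0, fun i => i.elim0, fun i => i.elim0⟩
  obtain ⟨j, hj, hj1, hjr⟩ : ∃ j, Q j ∧ ¬ Q (j + 1) ∧ j ≤ n := by
    have hex : ∃ j, ¬ Q j := ⟨n + 1, hQ⟩
    have h5 := Nat.find_spec hex
    have h6 : Nat.find hex ≤ n + 1 := Nat.find_min' hex hQ
    have h7 : Nat.find hex ≠ 0 := fun h8 => by
      rw [h8] at h5
      exact h5 hQ0
    obtain ⟨j, hj⟩ := Nat.exists_eq_succ_of_ne_zero h7
    refine ⟨j, ?_, ?_, by omega⟩
    · by_contra h8
      have h9 := Nat.find_min' hex h8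
      omega
    · rw [← Nat.succ_eq_add_one, ← hj]
      exact h5
  obtain ⟨b, C, h1, h2, h3, h4, h5, h6⟩ := hj
  refine ⟨univ.image b, ?_, ?_, fun x hx D hD hxD hDk hP => hj1 ?_⟩
  · intro y hy
    obtain ⟨i, -, rfl⟩ := Finset.mem_image.1 hy
    exact h1 i
  · refine Finset.card_image_le.trans ?_
    rw [Finset.card_univ, Fintype.card_fin]
    exact hjr
  · have hxb : ∀ i, b i ≠ x := fun i hi => (Finset.mem_sdiff.1 hx).2
      (Finset.mem_image.2 ⟨i, Finset.mem_univ i, hi⟩)
    have hDb : ∀ i, b i ∉ D := fun i hi => (Finset.mem_sdiff.1 (hD hi)).2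
      (Finset.mem_image.2 ⟨i, Finset.mem_univ i, rfl⟩)
    refine ⟨Fin.snoc b x, Fin.snoc C D, ?_, ?_, ?_, ?_, ?_, ?_⟩
    · intro i
      refine Fin.lastCases ?_ (fun i => ?_) i
      · rw [Fin.snoc_last]
        exact (Finset.mem_sdiff.1 hx).1
      · rw [Fin.snoc_castSucc]
        exact h1 i
    · intro i
      refine Fin.lastCases ?_ (fun i => ?_) i
      · rw [Fin.snoc_last]
        exact hD.trans Finset.sdiff_subset
      · rw [Fin.snoc_castSucc]
        exact h2 i
    · intro i
      refine Fin.lastCases ?_ (fun i => ?_) i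
      · rw [Fin.snoc_last]
        exact hDk
      · rw [Fin.snoc_castSucc]
        exact h3 i
    · intro i i'
      refine Fin.lastCases ?_ (fun i => ?_) i
      · refine Fin.lastCases ?_ (fun i' => ?_) i'
        · intro _
          rfl
        · intro h
          rw [Fin.snoc_last, Fin.snoc_castSucc] at h
          exact absurd h.symm (hxb i')
      · refine Fin.lastCases ?_ (fun i' => ?_) i'
        · intro h
          rw [Fin.snoc_last, Fin.snoc_castSucc] at h
          exact absurd h (hxb i)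
        · intro h
          rw [Fin.snoc_castSucc, Fin.snoc_castSucc] at h
          rw [h4 h]
    · intro i' i
      refine Fin.lastCases ?_ (fun i => ?_) i
      · intro _
        rw [Fin.snoc_last]
        refine Fin.lastCases ?_ (fun i' => ?_) i'
        · rw [Fin.snoc_last]
          exact hxD
        · rw [Fin.snoc_castSucc]
          exact hDb i'
      · rw [Fin.snoc_castSucc]
        refine Fin.lastCases ?_ (fun i' => ?_) i'
        · intro h
          exact absurd h (not_le.2 (Fin.castSucc_lt_last i))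
        · intro h
          rw [Fin.snoc_castSucc]
          exact h5 i' i (Fin.castSucc_le_castSucc_iff.1 h)
    · intro i
      refine Fin.lastCases ?_ (fun i => ?_) i
      · rw [Fin.snoc_last, Fin.snoc_last]
        exact hP
      · rw [Fin.snoc_castSucc, Fin.snoc_castSucc]
        exact h6 i

end Pool.Agent.P8H5.CY
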