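import Pool.Agent.P8H40.CY.Stm2
import Pool.Agent.P8H5.CY.Gre0

/-!
# The package GRE of the project CY, second part (helper5)
-/

set_option autoImplicit false

open Module

namespace Pool.Agent.P8H5.CY

open Pool.Agent.Y124.TD Pool.Agent.Y124.TG Pool.Agent.Y120.GH Pool.Agent.Y124.TL Pool.Agent.P8H40.SE
open Pool.Agent.P8H40.CY

theorem gre (hCLT : S_CLT) : S_GRE := by
  intro r₀ T A h hGF V _ T₀ hT
  classical
  obtain ⟨R, hR⟩ := hCLT hGF T₀ hT
  refine ⟨R + 1, by omega, fun σ _ hσ k r a δ e D => ?_⟩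
  -- the constants
  have hc := fun N₀ : ℕ => hR σ hσ r a δ e (D ^ (r + 2)) N₀
  choose cc MM hcc hmain using hc
  obtain ⟨c, hc0, hcle⟩ : ∃ c : ℝ, 0 < c ∧ ∀ N ≤ (r + 2) * k, c ≤ cc N := by
    refine ⟨(Finset.range ((r + 2) * k + 1)).inf' ⟨0, by simp⟩ cc, ?_, fun N hN => ?_⟩
    · rw [Finset.lt_inf'_iff]
      exact fun N _ => hcc N
    · exact Finset.inf'_le _ (Finset.mem_range.2 (by omega))
  obtain ⟨M₀, hM₀⟩ : ∃ M₀ : ℕ, 1 ≤ M₀ ∧ ∀ N ≤ (r + 2) * k, MM N ≤ M₀ := by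
    refine ⟨max 1 ((Finset.range ((r + 2) * k + 1)).sup MM), le_max_left _ _, fun N hN => ?_⟩
    exact (Finset.le_sup (f := MM) (Finset.mem_range.2 (by omega))).trans (le_max_right _ _)
  refine ⟨c, M₀, hc0, fun M hM θ w hdom S hSw hSd => ?_⟩
  have hM1 : (1 : ℝ) ≤ M := by exact_mod_cast hM₀.1.trans hM
  refine greedy S k (r + 1) (fun x C => ∃ K : IntermediateField ℚ ℂ, (FiniteDimensional ℚ K ∧
    finrank ℚ K ≤ D) ∧ Dep w θ a δ K x C) ?_ |>.imp fun E hE => ⟨hE.1, hE.2.1,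
      fun x hx C hC hxC hCk K hK hKD hdep => hE.2.2 x hx C hC hxC hCk ⟨K, ⟨hK, hKD⟩, hdep⟩⟩
  rintro ⟨b, C, hb, hC, hCk, hbi, hbC, hP⟩
  choose F hF hFD using hP
  obtain ⟨K, hFK, hKf, hKD⟩ := sup_field (D := D) (r + 2) F hF
  -- the other elements
  let U : Finset ℕ := (Finset.univ.biUnion C) \ Finset.univ.image b
  have hUS : U ⊆ S := by
    intro x hx
    obtain ⟨i, -, hi⟩ := Finset.mem_biUnion.1 (Finset.mem_sdiff.1 hx).1
    exact hC i hi
  have hUk : U.card ≤ (r + 2) * k := by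
    refine (Finset.card_le_card Finset.sdiff_subset).trans (Finset.card_biUnion_le.trans ?_)
    refine (Finset.sum_le_sum fun i _ => hCk i).trans ?_
    rw [Finset.sum_const, Finset.card_univ, Fintype.card_fin, smul_eq_mul]
  let u : Fin U.card → ℕ := fun l => (U.equivFin.symm l : ℕ)
  have hu : ∀ l, u l ∈ U := fun l => (U.equivFin.symm l).2
  have hui : Function.Injective u := fun l l' hl =>
    U.equivFin.symm.injective (Subtype.ext hl)
  have hus : ∀ x ∈ U, ∃ l, u l = x := fun x hx => ⟨U.equivFin ⟨x, hx⟩, by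
    simp only [u, Equiv.symm_apply_apply]⟩
  let b' : Fin (r + 2) → ℕ := fun i => b (Fin.rev i)
  have hmemS : ∀ x, Sum.elim u b' x ∈ S := by
    rintro (l | i)
    · exact hUS (hu l)
    · exact hb _
  have hinj : ∀ x y, x ≠ y → Sum.elim u b' x ≠ Sum.elim u b' y := by
    rintro (l | i) (l' | i') hxy heq
    · exact hxy (congrArg Sum.inl (hui heq))
    · refine (Finset.mem_sdiff.1 (hu l)).2 (Finset.mem_image.2 ⟨Fin.rev i', Finset.mem_univ _, ?_⟩)
      exact heq.symm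
    · refine (Finset.mem_sdiff.1 (hu l')).2 (Finset.mem_image.2 ⟨Fin.rev i, Finset.mem_univ _, ?_⟩)
      exact heq
    · exact hxy (congrArg Sum.inr (Fin.rev_injective (hbi heq)))
  refine hmain U.card M ((hM₀.2 _ hUk).trans hM) θ u b' ?_ ?_ K hKf hKD w ?_ ?_
  · intro x
    refine ⟨(hSw _ (hmemS x)).1, (hSw _ (hmemS x)).2.trans ?_⟩
    have := Real.rpow_le_rpow_of_exponent_le hM1 (hcle _ hUk)
    linarith
  · intro x y hxy
    have h1 := hSd _ (hmemS x) _ (hmemS y) (hinj x y hxy)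
    push_cast at h1
    linarith
  · exact fun x => hdom _ (hSw _ (hmemS x)).1
  · intro i W h1 hθ hWu hWb
    refine hFD (Fin.rev i) K (hFK _) W h1 hθ fun x hx j => ?_
    by_cases hxb : x ∈ Finset.univ.image b
    · obtain ⟨i₀, -, rfl⟩ := Finset.mem_image.1 hxb
      have h2 : Fin.rev i < i₀ := by
        by_contra h3
        exact hbC i₀ (Fin.rev i) (not_lt.1 h3) hx
      have h3 := hWb (Fin.rev i₀) (by rw [← Fin.rev_lt_rev, Fin.rev_rev]; exact h2) j
      simpa only [b', Fin.rev_rev] using h3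
    · obtain ⟨l, rfl⟩ := hus x (Finset.mem_sdiff.2 ⟨Finset.mem_biUnion.2 ⟨_, Finset.mem_univ _, hx⟩, hxb⟩)
      exact hWu l j

end Pool.Agent.P8H5.CY
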